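import Pool.Agent.Y440.LC.Main

set_option autoImplicit false

/-!
# MP_1e1427_nt: prime factors of `2^(x+y) + 2^(z+w) + 1` beyond `log n`

Every large odd `n` has at least `n ^ (1 - ε)` quadruples of natural numbers with
`n = x² + y² + z² + w²` for which all prime factors of `2^(x+y) + 2^(z+w) + 1` are larger than
`c log n log log n / log log log n`.

The proof. The numbers `2^(x+y) + 2^(z+w) + 1` coprime to `2 (2^K - 1)` are counted by the first part
of the starting result AllPrimesToLog, for all `K ≤ n ^ δ`. There the modulus was the least common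
multiple of all integers up to `c log n`. Here `K` is a common multiple of the numbers `q - 1`, `q` a
prime, `q ≤ Z = 2 ^ m`, with `log K = O(Z log log Z / log Z)`: the primes `l > Z / log Z` which
divide some `q - 1` satisfy `q = g l + 1` with `g < log Z`, and the upper bound sieve shows that
there are only `O(Z log log Z / (log Z) ^ 2)` of them.
-/

namespace Pool.Agent.Results.MP_1e1427_nt.BeyondLogarithm

theorem result (ε : ℝ) (hε : 0 < ε) : ∃ c : ℝ, 0 < c ∧ ∃ n₀ : ℕ, ∀ n : ℕ, n₀ ≤ n → Odd n →
    ∃ S : Finset (ℕ × ℕ × ℕ × ℕ), (n : ℝ) ^ (1 - ε) ≤ (S.card : ℝ) ∧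
      ∀ x y z w : ℕ, (x, y, z, w) ∈ S → n = x ^ 2 + y ^ 2 + z ^ 2 + w ^ 2 ∧
        ∀ q : ℕ, q.Prime → q ∣ 2 ^ (x + y) + 2 ^ (z + w) + 1 →
          c * (Real.log n * Real.log (Real.log n) / Real.log (Real.log (Real.log n))) < q :=
  Pool.Agent.Y440.LC.main1 ε hε

end Pool.Agent.Results.MP_1e1427_nt.BeyondLogarithm
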